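import Mathlib
import Pool.Agent.PZ871.Pl

set_option autoImplicit false

namespace Pool.Agent.H27Z.FT

open MeasureTheory Set Filter Topology
open scoped ENNReal

/-- the relation `c^(-1/k) ≤ a^(-1/k) + b^(-1/k)` (for `k = 0`: `min a b ≤ c`) -/
def Rel (k : ℕ) (a b c : ℝ≥0∞) : Prop :=
  ∀ τ u v : ℝ, 0 < τ → 0 < u → 0 < v → ENNReal.ofReal (τ / u ^ k) ≤ a →
    ENNReal.ofReal (τ / v ^ k) ≤ b → ENNReal.ofReal (τ / (u + v) ^ k) ≤ c

theorem bm_sum {A B C : Set ℝ} (hA : MeasurableSet A) (hB : MeasurableSet B)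
    (hA' : A.Nonempty) (hB' : B.Nonempty) (hC : ∀ x ∈ A, ∀ y ∈ B, x + y ∈ C) :
    volume A + volume B ≤ volume C := by
  have h := PZ871.PLaux.bm (C := (fun z : ℝ => (2 : ℝ) * z) ⁻¹' C) hA hB hA' hB' (by
    intro x hx y hy
    have : (2 : ℝ) * ((x + y) / 2) = x + y := by ring
    show (2 : ℝ) * ((x + y) / 2) ∈ C
    rw [this]; exact hC x hx y hy)
  rw [Real.volume_preimage_mul_left (by norm_num : (2 : ℝ) ≠ 0), ← mul_assoc] at h
  have e : (2 : ℝ≥0∞) * ENNReal.ofReal |(2 : ℝ)⁻¹| = 1 := by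
    rw [abs_of_pos (by norm_num), ENNReal.ofReal_inv_of_pos (by norm_num)]
    simp only [ENNReal.ofReal_ofNat]
    exact ENNReal.mul_inv_cancel (by norm_num) (by norm_num)
  rwa [e, one_mul] at h

theorem lc_aux (f g h : ℝ → ℝ) (hf : Measurable f) (hg : Measurable g) (hh : Measurable h)
    (f0 : ∀ x, 0 ≤ f x) (g0 : ∀ x, 0 ≤ g x) (h0 : ∀ x, 0 ≤ h x)
    (f1 : ∀ x, f x ≤ 1) (g1 : ∀ x, g x ≤ 1)
    (hfs : ∀ t, t < 1 → ∃ x, t < f x) (hgs : ∀ t, t < 1 → ∃ x, t < g x)
    (H : ∀ x y t, 0 < t → t < f x → t < g y → t ≤ h (x + y)) :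
    (∫⁻ x, ENNReal.ofReal (f x)) + (∫⁻ x, ENNReal.ofReal (g x))
      ≤ ∫⁻ x, ENNReal.ofReal (h x) := by
  rw [lintegral_eq_lintegral_meas_lt volume (Filter.Eventually.of_forall f0) hf.aemeasurable,
    lintegral_eq_lintegral_meas_lt volume (Filter.Eventually.of_forall g0) hg.aemeasurable,
    lintegral_eq_lintegral_meas_le volume (Filter.Eventually.of_forall h0) hh.aemeasurable]
  have hm : ∀ k : ℝ → ℝ, Measurable (fun t : ℝ => volume {a : ℝ | t < k a}) := fun k =>
    (Antitone.measurable (fun s t hst => measure_mono (fun a (ha : t < k a) =>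
      show s < k a from lt_of_le_of_lt hst ha)))
  rw [← lintegral_add_left (hm f)]
  refine setLIntegral_mono' measurableSet_Ioi ?_
  intro t ht
  have ht0 : 0 < t := ht
  by_cases ht1 : t < 1
  · refine bm_sum (hf measurableSet_Ioi) (hg measurableSet_Ioi) (hfs t ht1) (hgs t ht1) ?_
    intro x hx y hy
    exact H x y t ht0 hx hy
  · push Not at ht1
    have e1 : {a : ℝ | t < f a} = ∅ := by
      ext a; simp; linarith [f1 a]
    have e2 : {a : ℝ | t < g a} = ∅ := by
      ext a; simp; linarith [g1 a]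
    simp [e1, e2]

theorem radon2 (k : ℕ) {p q u v : ℝ} (hp : 0 < p) (hq : 0 < q) (hu : 0 < u) (hv : 0 < v) :
    (p + q) ^ (k + 1) / (u + v) ^ k ≤ p ^ (k + 1) / u ^ k + q ^ (k + 1) / v ^ k := by
  have huv : 0 < u + v := by linarith
  have hcv : ConvexOn ℝ (Ici (0 : ℝ)) (fun x : ℝ => x ^ (k + 1)) := convexOn_pow (k + 1)
  have h := hcv.2 (show p / u ∈ Ici (0 : ℝ) from le_of_lt (div_pos hp hu))
    (show q / v ∈ Ici (0 : ℝ) from le_of_lt (div_pos hq hv))
    (show 0 ≤ u / (u + v) by positivity) (show 0 ≤ v / (u + v) by positivity) (by field_simp)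
  simp only [smul_eq_mul] at h
  have e1 : u / (u + v) * (p / u) + v / (u + v) * (q / v) = (p + q) / (u + v) := by field_simp
  rw [e1] at h
  have e2 : (p + q) ^ (k + 1) / (u + v) ^ k = (u + v) * ((p + q) / (u + v)) ^ (k + 1) := by
    rw [div_pow, pow_succ (u + v)]; field_simp
  have e3 : p ^ (k + 1) / u ^ k + q ^ (k + 1) / v ^ k =
      (u + v) * (u / (u + v) * (p / u) ^ (k + 1) + v / (u + v) * (q / v) ^ (k + 1)) := by
    rw [div_pow, div_pow, pow_succ u, pow_succ v]; field_simp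
  rw [e2, e3]
  exact mul_le_mul_of_nonneg_left h huv.le

/-- normalisation of a bounded function which is not identically zero -/
theorem normalise (k : ℕ) (F : ℝ → ℝ≥0∞) (hF : Measurable F) (M : ℝ≥0∞) (hM : M ≠ ∞)
    (FM : ∀ x, F x ≤ M) (hpos : 0 < ∫⁻ x, F x) :
    ∃ (p : ℝ) (f : ℝ → ℝ), 0 < p ∧ Measurable f ∧ (∀ x, 0 ≤ f x) ∧ (∀ x, f x ≤ 1) ∧
      (∀ t, t < 1 → ∃ x, t < f x) ∧
      (∀ x, ENNReal.ofReal (f x) = ENNReal.ofReal (p ^ (k + 1)) * F x) := by
  set A : ℝ≥0∞ := ⨆ x, F x with hA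
  have hAM : A ≤ M := iSup_le FM
  have hAt : A ≠ ∞ := ne_top_of_le_ne_top hM hAM
  have hA0 : A ≠ 0 := by
    intro h0
    have : ∀ x, F x = 0 := by
      intro x
      have : F x ≤ A := le_iSup F x
      rw [h0] at this
      exact le_antisymm this bot_le
    simp [this] at hpos
  have ha : 0 < A.toReal := ENNReal.toReal_pos hA0 hAt
  have hFt : ∀ x, F x ≠ ∞ := fun x => ne_top_of_le_ne_top hM (FM x)
  set p : ℝ := (A.toReal⁻¹) ^ (((k + 1 : ℕ) : ℝ)⁻¹) with hp
  have hp0 : 0 < p := Real.rpow_pos_of_pos (inv_pos.2 ha) _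
  have hpk : p ^ (k + 1) = A.toReal⁻¹ :=
    Real.rpow_inv_natCast_pow (inv_pos.2 ha).le (Nat.succ_ne_zero k)
  refine ⟨p, fun x => p ^ (k + 1) * (F x).toReal, hp0, measurable_const.mul hF.ennreal_toReal,
    fun x => by positivity, fun x => ?_, fun t ht => ?_, fun x => ?_⟩
  · rw [hpk, inv_mul_le_iff₀ ha, mul_one]
    exact ENNReal.toReal_mono hAt (le_iSup F x)
  · by_cases ht0 : t < 0
    · exact ⟨0, lt_of_lt_of_le ht0 (by positivity)⟩
    push Not at ht0
    have h1 : ENNReal.ofReal (t * A.toReal) < A := by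
      rw [ENNReal.ofReal_lt_iff_lt_toReal (by positivity) hAt]
      nlinarith
    obtain ⟨x, hx⟩ := lt_iSup_iff.1 h1
    refine ⟨x, ?_⟩
    rw [ENNReal.ofReal_lt_iff_lt_toReal (by positivity) (hFt x)] at hx
    show t < p ^ (k + 1) * (F x).toReal
    rw [hpk, lt_inv_mul_iff₀ ha]
    linarith
  · show ENNReal.ofReal (p ^ (k + 1) * (F x).toReal) = _
    rw [ENNReal.ofReal_mul (by positivity), ENNReal.ofReal_toReal (hFt x)]

theorem step_bdd (k : ℕ) (F G H : ℝ → ℝ≥0∞) (hF : Measurable F) (hG : Measurable G)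
    (hH : Measurable H) (M : ℝ≥0∞) (hM : M ≠ ∞) (FM : ∀ x, F x ≤ M) (GM : ∀ x, G x ≤ M)
    (hR : ∀ x y, Rel (k + 1) (F x) (G y) (H (x + y))) :
    Rel k (∫⁻ x, F x) (∫⁻ x, G x) (∫⁻ x, H x) := by
  intro τ u v hτ hu hv h1 h2
  have pF : 0 < ∫⁻ x, F x := lt_of_lt_of_le (ENNReal.ofReal_pos.2 (by positivity)) h1
  have pG : 0 < ∫⁻ x, G x := lt_of_lt_of_le (ENNReal.ofReal_pos.2 (by positivity)) h2
  obtain ⟨p, f, hp, fm, f0, f1, fs, fe⟩ := normalise k F hF M hM FM pF
  obtain ⟨q, g, hq, gm, g0, g1, gs, ge⟩ := normalise k G hG M hM GM pG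
  have hpq : 0 < p + q := by linarith
  set c : ℝ := (p + q) ^ (k + 1) with hc
  have hc0 : 0 < c := by positivity
  set h : ℝ → ℝ := fun z => (min (ENNReal.ofReal c * H z) 1).toReal with hh
  have hne : ∀ z, min (ENNReal.ofReal c * H z) 1 ≠ ∞ := fun z =>
    ne_top_of_le_ne_top ENNReal.one_ne_top (min_le_right _ _)
  have hm : Measurable h := ((measurable_const.mul hH).min measurable_const).ennreal_toReal
  have key := lc_aux f g h fm gm hm f0 g0 (fun z => ENNReal.toReal_nonneg) f1 g1 fs gs (by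
    intro x y t ht hx hy
    have a1 : ENNReal.ofReal (t / p ^ (k + 1)) ≤ F x := by
      have : ENNReal.ofReal t ≤ ENNReal.ofReal (p ^ (k + 1)) * F x := by
        rw [← fe x]; exact ENNReal.ofReal_le_ofReal hx.le
      rw [ENNReal.ofReal_div_of_pos (by positivity)]
      exact ENNReal.div_le_of_le_mul' this
    have a2 : ENNReal.ofReal (t / q ^ (k + 1)) ≤ G y := by
      have : ENNReal.ofReal t ≤ ENNReal.ofReal (q ^ (k + 1)) * G y := by
        rw [← ge y]; exact ENNReal.ofReal_le_ofReal hy.le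
      rw [ENNReal.ofReal_div_of_pos (by positivity)]
      exact ENNReal.div_le_of_le_mul' this
    have a3 := hR x y t p q ht hp hq a1 a2
    have a4 : ENNReal.ofReal t ≤ ENNReal.ofReal c * H (x + y) := by
      calc ENNReal.ofReal t = ENNReal.ofReal c * ENNReal.ofReal (t / c) := by
            rw [← ENNReal.ofReal_mul hc0.le]; congr 1; field_simp
        _ ≤ _ := by gcongr
    have a5 : ENNReal.ofReal t ≤ 1 := by
      rw [← ENNReal.ofReal_one]; exact ENNReal.ofReal_le_ofReal (by linarith [f1 x])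
    exact (ENNReal.ofReal_le_iff_le_toReal (hne _)).1 (le_min a4 a5))
  simp only [fe, ge] at key
  rw [lintegral_const_mul _ hF, lintegral_const_mul _ hG] at key
  have hup : (∫⁻ x, ENNReal.ofReal (h x)) ≤ ENNReal.ofReal c * ∫⁻ x, H x := by
    rw [← lintegral_const_mul _ hH]
    refine lintegral_mono fun z => ?_
    show ENNReal.ofReal (min (ENNReal.ofReal c * H z) 1).toReal ≤ _
    rw [ENNReal.ofReal_toReal (hne z)]
    exact min_le_left _ _
  have hlow : ENNReal.ofReal (c * (τ / (u + v) ^ k)) ≤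
      ENNReal.ofReal (p ^ (k + 1)) * (∫⁻ x, F x) + ENNReal.ofReal (q ^ (k + 1)) * ∫⁻ x, G x := by
    calc ENNReal.ofReal (c * (τ / (u + v) ^ k))
        ≤ ENNReal.ofReal (p ^ (k + 1) * (τ / u ^ k) + q ^ (k + 1) * (τ / v ^ k)) := by
          apply ENNReal.ofReal_le_ofReal
          have := mul_le_mul_of_nonneg_left (radon2 k hp hq hu hv) hτ.le
          calc c * (τ / (u + v) ^ k) = τ * ((p + q) ^ (k + 1) / (u + v) ^ k) := by
                rw [hc]; ring
            _ ≤ _ := this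
            _ = _ := by ring
      _ = ENNReal.ofReal (p ^ (k + 1)) * ENNReal.ofReal (τ / u ^ k) +
          ENNReal.ofReal (q ^ (k + 1)) * ENNReal.ofReal (τ / v ^ k) := by
          rw [ENNReal.ofReal_add (by positivity) (by positivity),
            ENNReal.ofReal_mul (by positivity), ENNReal.ofReal_mul (by positivity)]
      _ ≤ _ := by gcongr
  have fin := hlow.trans (key.trans hup)
  rw [ENNReal.ofReal_mul hc0.le] at fin
  exact (ENNReal.mul_le_mul_iff_right (ENNReal.ofReal_pos.2 hc0).ne' ENNReal.ofReal_ne_top).1 fin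

theorem le_of_forall_lt_scale {τ w : ℝ} (hτ : 0 < τ) (hw : 0 < w) {c : ℝ≥0∞}
    (h : ∀ τ', 0 < τ' → τ' < τ → ENNReal.ofReal (τ' / w) ≤ c) : ENNReal.ofReal (τ / w) ≤ c := by
  by_contra hc
  push Not at hc
  have hct : c ≠ ∞ := ne_top_of_lt hc
  rw [ENNReal.lt_ofReal_iff_toReal_lt hct, lt_div_iff₀ hw] at hc
  have h0 : 0 ≤ c.toReal * w := by positivity
  have := h ((c.toReal * w + τ) / 2) (by linarith) (by linarith)
  rw [ENNReal.ofReal_le_iff_le_toReal hct, div_le_iff₀ hw] at this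
  linarith

theorem step (k : ℕ) (F G H : ℝ → ℝ≥0∞) (hF : Measurable F) (hG : Measurable G)
    (hH : Measurable H) (hR : ∀ x y, Rel (k + 1) (F x) (G y) (H (x + y))) :
    Rel k (∫⁻ x, F x) (∫⁻ x, G x) (∫⁻ x, H x) := by
  have trunc : ∀ K : ℝ → ℝ≥0∞, Measurable K →
      (∫⁻ x, K x) = ⨆ n : ℕ, ∫⁻ x, min (K x) (n : ℝ≥0∞) := by
    intro K hK
    rw [← lintegral_iSup (fun n => hK.min measurable_const)]
    · refine lintegral_congr (fun x => ?_)
      rw [← inf_iSup_eq, ENNReal.iSup_natCast]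
      simp
    · intro m n hmn x
      exact min_le_min_left _ (by exact_mod_cast hmn)
  intro τ u v hτ hu hv h1 h2
  refine le_of_forall_lt_scale hτ (by positivity) fun τ' hτ' hlt => ?_
  have l1 : ENNReal.ofReal (τ' / u ^ k) < ∫⁻ x, F x :=
    lt_of_lt_of_le ((ENNReal.ofReal_lt_ofReal_iff (by positivity)).2 (by gcongr)) h1
  have l2 : ENNReal.ofReal (τ' / v ^ k) < ∫⁻ x, G x :=
    lt_of_lt_of_le ((ENNReal.ofReal_lt_ofReal_iff (by positivity)).2 (by gcongr)) h2
  rw [trunc F hF] at l1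
  rw [trunc G hG] at l2
  obtain ⟨m, hm⟩ := lt_iSup_iff.1 l1
  obtain ⟨n, hn⟩ := lt_iSup_iff.1 l2
  refine step_bdd k (fun x => min (F x) (m : ℝ≥0∞)) (fun x => min (G x) (n : ℝ≥0∞)) H
    (hF.min measurable_const) (hG.min measurable_const) hH ((max m n : ℕ) : ℝ≥0∞)
    (ENNReal.natCast_ne_top _) (fun x => (min_le_right _ _).trans (by exact_mod_cast le_max_left m n))
    (fun x => (min_le_right _ _).trans (by exact_mod_cast le_max_right m n)) ?_ τ' u v hτ' hu hv
    hm.le hn.le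
  intro x y s a b hs ha hb e1 e2
  exact hR x y s a b hs ha hb (e1.trans (min_le_left _ _)) (e2.trans (min_le_left _ _))

theorem bbl_pi : ∀ (n k : ℕ) (f g h : (Fin n → ℝ) → ℝ≥0∞), Measurable f → Measurable g →
    Measurable h → (∀ s t : Fin n → ℝ, Rel (k + n) (f s) (g t) (h (s + t))) →
    Rel k (∫⁻ s, f s) (∫⁻ s, g s) (∫⁻ s, h s) := by
  intro n
  induction n with
  | zero =>
    intro k f g h hf hg hh H
    simp only [lintegral_unique]
    have hv : (volume : Measure (Fin 0 → ℝ)) univ = 1 := by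
      rw [Measure.volume_pi_eq_dirac (fun i => i.elim0)]; simp
    rw [hv]
    simp only [mul_one]
    have h1 : ∀ x y : Fin 0 → ℝ, x = y := fun x y => Subsingleton.elim _ _
    have := H (Unique.instInhabited.default) (Unique.instInhabited.default)
    rw [h1 (_ + _) (Unique.instInhabited.default)] at this
    exact this
  | succ n ih =>
    intro k f g h hf hg hh H
    rw [PZ871.PLaux.lintegral_succ n f hf, PZ871.PLaux.lintegral_succ n g hg,
      PZ871.PLaux.lintegral_succ n h hh]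
    have hcons := PZ871.PLaux.measurable_cons n
    have hcons2 : ∀ a : ℝ, Measurable (fun v : Fin n → ℝ => (Fin.cons a v : Fin (n + 1) → ℝ)) :=
      fun a => hcons.comp (measurable_const.prodMk measurable_id)
    refine step k _ _ _ ?_ ?_ ?_ ?_
    · exact (hf.comp hcons).lintegral_prod_right'
    · exact (hg.comp hcons).lintegral_prod_right'
    · exact (hh.comp hcons).lintegral_prod_right'
    · intro x y
      refine ih (k + 1) _ _ _ (hf.comp (hcons2 x)) (hg.comp (hcons2 y)) (hh.comp (hcons2 _)) ?_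
      intro s t
      have := H (Fin.cons x s) (Fin.cons y t)
      have e : (Fin.cons x s : Fin (n + 1) → ℝ) + Fin.cons y t = Fin.cons (x + y) (s + t) := by
        ext i
        refine Fin.cases ?_ (fun j => ?_) i <;> simp
      rw [e, show k + (n + 1) = k + 1 + n by ring] at this
      exact this

/-- Borell-Brascamp-Lieb inequality in `ℝ^n`, including the limiting exponent `-1/n` -/
theorem bbl (n k : ℕ) (f g h : EuclideanSpace ℝ (Fin n) → ℝ≥0∞) (hf : Measurable f)
    (hg : Measurable g) (hh : Measurable h)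
    (H : ∀ x y, Rel (k + n) (f x) (g y) (h (x + y))) :
    Rel k (∫⁻ x, f x) (∫⁻ x, g x) (∫⁻ x, h x) := by
  have hmp := (EuclideanSpace.volume_preserving_symm_measurableEquiv_toLp (Fin n)).symm
  have key : ∀ F : EuclideanSpace ℝ (Fin n) → ℝ≥0∞, Measurable F →
      ∫⁻ x, F x = ∫⁻ s : Fin n → ℝ, F (WithLp.toLp 2 s) := by
    intro F hF
    exact (hmp.lintegral_comp hF).symm
  rw [key f hf, key g hg, key h hh]
  have hcont : Measurable (fun s : Fin n → ℝ => (WithLp.toLp 2 s : EuclideanSpace ℝ (Fin n))) :=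
    hmp.measurable
  refine bbl_pi n k (fun s => f (WithLp.toLp 2 s)) (fun s => g (WithLp.toLp 2 s))
    (fun s => h (WithLp.toLp 2 s)) (hf.comp hcont) (hg.comp hcont) (hh.comp hcont) ?_
  intro s t
  exact H (WithLp.toLp 2 s) (WithLp.toLp 2 t)

/-- the limiting case: `min (∫ f) (∫ g) ≤ ∫ h` -/
theorem bbl_min (n : ℕ) (f g h : EuclideanSpace ℝ (Fin n) → ℝ≥0∞) (hf : Measurable f)
    (hg : Measurable g) (hh : Measurable h)
    (H : ∀ x y, Rel n (f x) (g y) (h (x + y))) (τ : ℝ)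
    (h1 : ENNReal.ofReal τ ≤ ∫⁻ x, f x) (h2 : ENNReal.ofReal τ ≤ ∫⁻ x, g x) :
    ENNReal.ofReal τ ≤ ∫⁻ x, h x := by
  by_cases hτ : 0 < τ
  · have := bbl n 0 f g h hf hg hh (by simpa using H) τ 1 1 hτ one_pos one_pos
      (by simpa using h1) (by simpa using h2)
    simpa using this
  · rw [ENNReal.ofReal_of_nonpos (not_lt.1 hτ)]
    exact bot_le

end Pool.Agent.H27Z.FT
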