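import Mathlib
import Pool.Agent.H27Z.FT.BBL

set_option autoImplicit false

namespace Pool.Agent.H27Z.FT

open MeasureTheory Set Filter Topology
open scoped ENNReal

abbrev E (d : ℕ) := EuclideanSpace ℝ (Fin d)

/-- regularised kernel `max(|z|,y)^(-(d+α))` -/
noncomputable def ker (d : ℕ) (α y : ℝ) (z : E d) : ℝ := (max ‖z‖ y) ^ (-((d : ℝ) + α))

/-- regularised fractional Laplacian -/
noncomputable def RR {d : ℕ} (α : ℝ) (φ : E d → ℝ) (x : E d) (y : ℝ) : ℝ :=
  ∫ w, (φ x - φ w) * ker d α y (x - w)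

/-- `φ` solves the fractional torsion problem on `D` -/
structure Tors {d : ℕ} (α : ℝ) (D : Set (E d)) (φ : E d → ℝ) : Prop where
  cont : Continuous φ
  zero : ∀ x, x ∉ D → φ x = 0
  bdd : Bornology.IsBounded D
  lim : ∀ x ∈ D, Tendsto (RR α φ x) (𝓝[>] 0) (𝓝 1)

variable {d : ℕ} {α : ℝ}

theorem ker_pos {y : ℝ} (hy : 0 < y) (z : E d) : 0 < ker d α y z :=
  Real.rpow_pos_of_pos (lt_of_lt_of_le hy (le_max_right _ _)) _

theorem ker_cont {y : ℝ} (hy : 0 < y) : Continuous (ker d α y) := by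
  unfold ker
  refine Continuous.rpow_const (continuous_norm.max continuous_const) fun z => Or.inl ?_
  exact (lt_of_lt_of_le hy (le_max_right _ _)).ne'

theorem ker_smul {c : ℝ} (hc : 0 < c) {y : ℝ} (hy : 0 < y) (z : E d) :
    ker d α (c * y) (c • z) = c ^ (-((d : ℝ) + α)) * ker d α y z := by
  unfold ker
  rw [norm_smul, Real.norm_eq_abs, abs_of_pos hc, ← mul_max_of_nonneg _ _ hc.le,
    Real.mul_rpow hc.le (le_trans hy.le (le_max_right _ _))]

theorem ker_one_int (hα : 0 < α) : Integrable (ker d α 1) := by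
  have h1 : Integrable (fun z : E d => (1 + ‖z‖) ^ (-((d : ℝ) + α))) := by
    apply integrable_one_add_norm
    simp only [finrank_euclideanSpace, Fintype.card_fin]
    linarith
  refine (h1.const_mul ((1 / 2 : ℝ) ^ (-((d : ℝ) + α)))).mono'
    (ker_cont one_pos).aestronglyMeasurable (Eventually.of_forall fun z => ?_)
  rw [Real.norm_eq_abs, abs_of_pos (ker_pos one_pos z), ← Real.mul_rpow (by norm_num) (by positivity)]
  unfold ker
  apply Real.rpow_le_rpow_of_nonpos (by positivity)
  · have h2 := le_max_left ‖z‖ 1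
    have h3 := le_max_right ‖z‖ 1
    linarith
  · have : (0 : ℝ) ≤ d := Nat.cast_nonneg d
    linarith

theorem ker_eq {y : ℝ} (hy : 0 < y) (z : E d) :
    ker d α y z = y ^ (-((d : ℝ) + α)) * ker d α 1 (y⁻¹ • z) := by
  have := ker_smul (d := d) (α := α) hy one_pos (y⁻¹ • z)
  rwa [mul_one, smul_smul, mul_inv_cancel₀ hy.ne', one_smul] at this

theorem ker_int (hα : 0 < α) {y : ℝ} (hy : 0 < y) : Integrable (ker d α y) := by
  have h1 : Integrable (fun z : E d => ker d α 1 (y⁻¹ • z)) :=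
    (ker_one_int hα).comp_smul (inv_ne_zero hy.ne')
  have := h1.const_mul (y ^ (-((d : ℝ) + α)))
  refine this.congr (Eventually.of_forall fun z => ?_)
  exact (ker_eq hy z).symm

theorem int_scale (F : E d → ℝ) {c : ℝ} (hc : 0 < c) (p : E d) :
    ∫ w, F (c⁻¹ • w + p) = c ^ d * ∫ w, F w := by
  have h1 := Measure.integral_comp_inv_smul (volume : Measure (E d)) (fun w => F (w + p)) c
  simp only [finrank_euclideanSpace, Fintype.card_fin, smul_eq_mul] at h1
  rw [h1, abs_of_pos (pow_pos hc d), integral_add_right_eq_self]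

theorem ker_integral {y : ℝ} (hy : 0 < y) :
    ∫ z, ker d α y z = y ^ (-α) * ∫ z, ker d α 1 z := by
  simp_rw [ker_eq hy]
  rw [integral_const_mul]
  have := int_scale (ker d α 1) hy 0
  simp only [add_zero] at this
  rw [this, ← mul_assoc, ← Real.rpow_natCast y d, ← Real.rpow_add hy]
  congr 2
  ring

theorem ker_sub_int (hα : 0 < α) {y : ℝ} (hy : 0 < y) (x : E d) :
    Integrable (fun w => ker d α y (x - w)) :=
  (ker_int hα hy).comp_sub_left x

namespace Tors

variable {D : Set (E d)} {φ : E d → ℝ}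

theorem supp (h : Tors α D φ) : HasCompactSupport φ := by
  refine HasCompactSupport.intro h.bdd.isCompact_closure fun x hx => h.zero x ?_
  exact fun hD => hx (subset_closure hD)

theorem bound (h : Tors α D φ) : ∃ M, ∀ x, ‖φ x‖ ≤ M :=
  h.cont.bounded_above_of_compact_support h.supp

theorem int1 (h : Tors α D φ) (hα : 0 < α) {y : ℝ} (hy : 0 < y) (x : E d) :
    Integrable (fun w => φ w * ker d α y (x - w)) := by
  obtain ⟨M, hM⟩ := h.bound
  exact (ker_sub_int hα hy x).bdd_mul h.cont.aestronglyMeasurable (Eventually.of_forall hM)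

theorem int2 (h : Tors α D φ) (hα : 0 < α) {y : ℝ} (hy : 0 < y) (x : E d) :
    Integrable (fun w => (φ x - φ w) * ker d α y (x - w)) := by
  have := ((ker_sub_int hα hy x).const_mul (φ x)).sub (h.int1 hα hy x)
  refine this.congr (Eventually.of_forall fun w => ?_)
  simp only [Pi.sub_apply]
  ring

theorem expand (h : Tors α D φ) (hα : 0 < α) {y : ℝ} (hy : 0 < y) (x : E d) :
    ∫ w, φ w * ker d α y (x - w) = φ x * y ^ (-α) * (∫ z, ker d α 1 z) - RR α φ x y := by
  unfold RR
  have e : (fun w => (φ x - φ w) * ker d α y (x - w)) =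
      fun w => φ x * ker d α y (x - w) - φ w * ker d α y (x - w) := by
    funext w; ring
  rw [e, integral_sub ((ker_sub_int hα hy x).const_mul (φ x)) (h.int1 hα hy x),
    integral_const_mul, integral_sub_left_eq_self (ker d α y) volume x, ker_integral hy]
  ring

theorem not_min (h : Tors α D φ) {x : E d} (hx : x ∈ D) (hmin : ∀ w, φ x ≤ φ w) : False := by
  have h1 : (1 : ℝ) ≤ 0 := by
    refine le_of_tendsto (h.lim x hx) ?_
    filter_upwards [self_mem_nhdsWithin] with y hy
    refine integral_nonpos fun w => ?_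
    exact mul_nonpos_of_nonpos_of_nonneg (sub_nonpos.2 (hmin w)) (ker_pos hy _).le
  linarith

theorem nonneg (h : Tors α D φ) (x : E d) : 0 ≤ φ x := by
  by_contra hx
  push Not at hx
  have hxD : x ∈ D := by
    by_contra hn
    rw [h.zero x hn] at hx
    exact lt_irrefl _ hx
  obtain ⟨z, hz, hzmin⟩ := h.bdd.isCompact_closure.exists_isMinOn ⟨x, subset_closure hxD⟩
    h.cont.continuousOn
  have hzx : φ z ≤ φ x := hzmin (subset_closure hxD)
  have hzD : z ∈ D := by
    by_contra hn
    rw [h.zero z hn] at hzx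
    linarith
  refine h.not_min hzD fun w => ?_
  by_cases hw : w ∈ D
  · exact hzmin (subset_closure hw)
  · rw [h.zero w hw]; linarith

theorem pos (h : Tors α D φ) {x : E d} (hx : x ∈ D) : 0 < φ x := by
  by_contra hn
  push Not at hn
  exact h.not_min hx fun w => hn.trans (h.nonneg w)

theorem mem (h : Tors α D φ) {x : E d} (hx : 0 < φ x) : x ∈ D := by
  by_contra hn
  rw [h.zero x hn] at hx
  exact lt_irrefl _ hx

theorem scale (h : Tors α D φ) {c : ℝ} (hc : 0 < c) (p : E d) :
    Tors α {w | c⁻¹ • w + p ∈ D} (fun w => c ^ α * φ (c⁻¹ • w + p)) := by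
  refine ⟨continuous_const.mul (h.cont.comp (by fun_prop)), fun x hx => ?_, ?_, fun x hx => ?_⟩
  · rw [h.zero _ hx, mul_zero]
  · obtain ⟨R, hR⟩ := h.bdd.exists_norm_le
    refine (Metric.isBounded_closedBall (x := (0 : E d)) (r := c * (R + ‖p‖))).subset fun w hw => ?_
    rw [mem_closedBall_zero_iff]
    have h1 := hR _ hw
    have h2 : w = c • ((c⁻¹ • w + p) - p) := by
      rw [add_sub_cancel_right, smul_smul, mul_inv_cancel₀ hc.ne', one_smul]
    rw [h2, norm_smul, Real.norm_eq_abs, abs_of_pos hc]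
    gcongr
    exact (norm_sub_le _ _).trans (by linarith)
  · have h1 : Tendsto (fun y : ℝ => c⁻¹ * y) (𝓝[>] 0) (𝓝[>] 0) := by
      refine tendsto_nhdsWithin_iff.2 ⟨?_, ?_⟩
      · have : Tendsto (fun y : ℝ => c⁻¹ * y) (𝓝 0) (𝓝 (c⁻¹ * 0)) :=
          (continuous_const.mul continuous_id).tendsto 0
        rw [mul_zero] at this
        exact this.mono_left nhdsWithin_le_nhds
      · filter_upwards [self_mem_nhdsWithin] with y hy
        exact mul_pos (inv_pos.2 hc) hy
    refine ((h.lim _ hx).comp h1).congr' ?_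
    filter_upwards [self_mem_nhdsWithin] with y hy
    have hy' : 0 < c⁻¹ * y := mul_pos (inv_pos.2 hc) hy
    show RR α φ (c⁻¹ • x + p) (c⁻¹ * y) = _
    unfold RR
    have e : ∀ w : E d, (c ^ α * φ (c⁻¹ • x + p) - c ^ α * φ (c⁻¹ • w + p)) * ker d α y (x - w) =
        (c ^ α * c ^ (-((d : ℝ) + α))) * ((φ (c⁻¹ • x + p) - φ (c⁻¹ • w + p)) *
          ker d α (c⁻¹ * y) ((c⁻¹ • x + p) - (c⁻¹ • w + p))) := by
      intro w
      have e1 := ker_smul (d := d) (α := α) hc hy' ((c⁻¹ • x + p) - (c⁻¹ • w + p))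
      have e2 : c • ((c⁻¹ • x + p) - (c⁻¹ • w + p)) = x - w := by
        rw [add_sub_add_right_eq_sub, ← smul_sub, smul_smul, mul_inv_cancel₀ hc.ne', one_smul]
      rw [e2, ← mul_assoc, mul_inv_cancel₀ hc.ne', one_mul] at e1
      rw [e1]; ring
    simp_rw [e]
    rw [integral_const_mul, int_scale (fun w => (φ (c⁻¹ • x + p) - φ w) *
      ker d α (c⁻¹ * y) ((c⁻¹ • x + p) - w)) hc p, ← mul_assoc, ← Real.rpow_natCast c d,
      ← Real.rpow_add hc, ← Real.rpow_add hc]
    have : α + -((d : ℝ) + α) + d = 0 := by ring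
    rw [this, Real.rpow_zero, one_mul]

end Tors

end Pool.Agent.H27Z.FT
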