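import Mathlib
import Pool.Agent.H27Z.FT.Ker

set_option autoImplicit false

namespace Pool.Agent.H27Z.FT

open MeasureTheory Set Filter Topology
open scoped ENNReal

variable {d : ℕ} {α : ℝ}

theorem root_iff (hα : 0 < α) {τ u s N : ℝ} (hτ : 0 < τ) (hu : 0 < u) (hs : 0 ≤ s) (hN : 0 < N) :
    τ / u ^ d ≤ s ^ α * N ^ (-((d : ℝ) + α)) ↔
      τ ^ (((d : ℝ) + α)⁻¹) * N ≤ s ^ (α / ((d : ℝ) + α)) * u ^ ((d : ℝ) / ((d : ℝ) + α)) := by
  have hd : (0 : ℝ) ≤ d := Nat.cast_nonneg d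
  have he : (0 : ℝ) < (d : ℝ) + α := by linarith
  have hNe : 0 < N ^ ((d : ℝ) + α) := Real.rpow_pos_of_pos hN _
  have h1 : τ / u ^ d ≤ s ^ α * N ^ (-((d : ℝ) + α)) ↔
      τ * N ^ ((d : ℝ) + α) ≤ s ^ α * u ^ d := by
    rw [Real.rpow_neg hN.le, ← div_eq_mul_inv, div_le_div_iff₀ (pow_pos hu d) hNe]
  rw [h1, ← Real.rpow_le_rpow_iff (z := ((d : ℝ) + α)⁻¹) (by positivity) (by positivity)
    (inv_pos.2 he), Real.mul_rpow hτ.le hNe.le, Real.mul_rpow (by positivity) (by positivity),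
    ← Real.rpow_mul hN.le, mul_inv_cancel₀ he.ne', Real.rpow_one, ← Real.rpow_mul hs,
    ← Real.rpow_natCast u d, ← Real.rpow_mul hu.le, div_eq_mul_inv, div_eq_mul_inv]

theorem geom_superadd {θ η a b u v : ℝ} (hθ : 0 ≤ θ) (hη : 0 ≤ η) (h : θ + η = 1)
    (ha : 0 < a) (hb : 0 < b) (hu : 0 < u) (hv : 0 < v) :
    a ^ θ * u ^ η + b ^ θ * v ^ η ≤ (a + b) ^ θ * (u + v) ^ η := by
  have hab : 0 < a + b := by linarith
  have huv : 0 < u + v := by linarith
  have h1 := Real.geom_mean_le_arith_mean2_weighted hθ hη (p₁ := a / (a + b)) (p₂ := u / (u + v))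
    (by positivity) (by positivity) h
  have h2 := Real.geom_mean_le_arith_mean2_weighted hθ hη (p₁ := b / (a + b)) (p₂ := v / (u + v))
    (by positivity) (by positivity) h
  rw [Real.div_rpow ha.le hab.le, Real.div_rpow hu.le huv.le] at h1
  rw [Real.div_rpow hb.le hab.le, Real.div_rpow hv.le huv.le] at h2
  have p1 : 0 < (a + b) ^ θ := Real.rpow_pos_of_pos hab _
  have p2 : 0 < (u + v) ^ η := Real.rpow_pos_of_pos huv _
  have h3 : θ * (a / (a + b)) + η * (u / (u + v)) + (θ * (b / (a + b)) + η * (v / (u + v))) = 1 := by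
    have e1 : a / (a + b) + b / (a + b) = 1 := by field_simp
    have e2 : u / (u + v) + v / (u + v) = 1 := by field_simp
    calc _ = θ * (a / (a + b) + b / (a + b)) + η * (u / (u + v) + v / (u + v)) := by ring
      _ = 1 := by rw [e1, e2]; linarith
  have h4 : (a ^ θ * u ^ η + b ^ θ * v ^ η) / ((a + b) ^ θ * (u + v) ^ η) ≤ 1 := by
    calc _ = a ^ θ / (a + b) ^ θ * (u ^ η / (u + v) ^ η) +
          b ^ θ / (a + b) ^ θ * (v ^ η / (u + v) ^ η) := by field_simp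
      _ ≤ 1 := by linarith
  rwa [div_le_one (by positivity)] at h4

theorem rel_alg (hα : 0 < α) {s0 s1 s N0 N1 N : ℝ} (h0 : 0 ≤ s0) (h1 : 0 ≤ s1) (hs0 : 0 ≤ s)
    (hN0 : 0 < N0) (hN1 : 0 < N1) (hN : 0 < N) (hs : 0 < s0 → 0 < s1 → s0 + s1 ≤ s)
    (hNN : N ≤ N0 + N1) :
    Rel d (ENNReal.ofReal (s0 ^ α * N0 ^ (-((d : ℝ) + α))))
      (ENNReal.ofReal (s1 ^ α * N1 ^ (-((d : ℝ) + α))))
      (ENNReal.ofReal (s ^ α * N ^ (-((d : ℝ) + α)))) := by
  intro τ u v hτ hu hv a0 a1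
  have hd : (0 : ℝ) ≤ d := Nat.cast_nonneg d
  have he : (0 : ℝ) < (d : ℝ) + α := by linarith
  rw [ENNReal.ofReal_le_ofReal_iff (by positivity)] at a0 a1
  apply ENNReal.ofReal_le_ofReal
  have p0 : 0 < s0 := by
    rcases h0.lt_or_eq with h | h
    · exact h
    · exfalso
      rw [← h, Real.zero_rpow hα.ne', zero_mul] at a0
      exact absurd a0 (not_le.2 (by positivity))
  have p1 : 0 < s1 := by
    rcases h1.lt_or_eq with h | h
    · exact h
    · exfalso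
      rw [← h, Real.zero_rpow hα.ne', zero_mul] at a1
      exact absurd a1 (not_le.2 (by positivity))
  rw [root_iff hα hτ hu h0 hN0] at a0
  rw [root_iff hα hτ hv h1 hN1] at a1
  rw [root_iff hα hτ (by linarith) hs0 hN]
  have g := geom_superadd (θ := α / ((d : ℝ) + α)) (η := (d : ℝ) / ((d : ℝ) + α))
    (by positivity) (by positivity) (by field_simp; ring) p0 p1 hu hv
  have hτe : 0 < τ ^ (((d : ℝ) + α)⁻¹) := Real.rpow_pos_of_pos hτ _
  calc τ ^ (((d : ℝ) + α)⁻¹) * N ≤ τ ^ (((d : ℝ) + α)⁻¹) * (N0 + N1) := by gcongr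
    _ ≤ (s0 + s1) ^ (α / ((d : ℝ) + α)) * (u + v) ^ ((d : ℝ) / ((d : ℝ) + α)) := by
        rw [mul_add]; linarith
    _ ≤ _ := by
        gcongr
        exact hs p0 p1

theorem tendsto_mul_pos {c : ℝ} (hc : 0 < c) :
    Tendsto (fun y : ℝ => y * c) (𝓝[>] 0) (𝓝[>] 0) := by
  refine tendsto_nhdsWithin_iff.2 ⟨?_, ?_⟩
  · have : Tendsto (fun y : ℝ => y * c) (𝓝 0) (𝓝 (0 * c)) :=
      (continuous_id.mul continuous_const).tendsto 0
    rw [zero_mul] at this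
    exact this.mono_left nhdsWithin_le_nhds
  · filter_upwards [self_mem_nhdsWithin] with y hy
    exact mul_pos hy hc

/-- comparison at a touching point -/
theorem cmp (hα : 0 < α) {D1 D2 : Set (E d)} {φ1 φ2 : E d → ℝ} (h1 : Tors α D1 φ1)
    (h2 : Tors α D2 φ2) {a p : E d} (ha : a ∈ D1) (hb : a + p ∈ D2) {m : ℝ}
    (hle : ∀ w, φ1 w ≤ m * φ2 (w + p)) (heq : φ1 a = m * φ2 (a + p)) : m ≤ 1 := by
  have l1 := h1.lim a ha
  have l2 := (h2.lim _ hb).const_mul m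
  rw [mul_one] at l2
  refine le_of_tendsto_of_tendsto l2 l1 ?_
  filter_upwards [self_mem_nhdsWithin] with y hy
  show m * RR α φ2 (a + p) y ≤ RR α φ1 a y
  unfold RR
  rw [← integral_add_right_eq_self (μ := volume)
    (fun w => (φ2 (a + p) - φ2 w) * ker d α y (a + p - w)) p, ← integral_const_mul]
  refine integral_mono (((h2.int2 hα hy (a + p)).comp_add_right p).const_mul m)
    (h1.int2 hα hy a) fun w => ?_
  have e : a + p - (w + p) = a - w := by abel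
  simp only [e]
  have := hle w
  have hk := (ker_pos (d := d) (α := α) hy (a - w)).le
  rw [← mul_assoc]
  apply mul_le_mul_of_nonneg_right _ hk
  linarith

/-- the two-point touching argument, based on the limiting Borell-Brascamp-Lieb inequality -/
theorem touch (hα : 0 < α) {D0 D1 D2 : Set (E d)} {φ0 φ1 φ2 : E d → ℝ} (h0 : Tors α D0 φ0)
    (h1 : Tors α D1 φ1) (h2 : Tors α D2 φ2) {a0 a1 : E d} (ha0 : a0 ∈ D0) (ha1 : a1 ∈ D1)
    (ha2 : a0 + a1 ∈ D2) {μ : ℝ} (hμ : 0 < μ)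
    (hle : ∀ w0 ∈ D0, ∀ w1 ∈ D1, φ0 w0 ^ α⁻¹ + φ1 w1 ^ α⁻¹ ≤ μ * φ2 (w0 + w1) ^ α⁻¹)
    (heq : φ0 a0 ^ α⁻¹ + φ1 a1 ^ α⁻¹ = μ * φ2 (a0 + a1) ^ α⁻¹) : μ ^ α ≤ 1 := by
  have q0 := h0.pos ha0
  have q1 := h1.pos ha1
  have q2 := h2.pos ha2
  set s0 := φ0 a0 ^ α⁻¹ with hs0
  set s1 := φ1 a1 ^ α⁻¹ with hs1
  set s2 := φ2 (a0 + a1) ^ α⁻¹ with hs2
  have p0 : 0 < s0 := Real.rpow_pos_of_pos q0 _
  have p1 : 0 < s1 := Real.rpow_pos_of_pos q1 _
  have p2 : 0 < s2 := Real.rpow_pos_of_pos q2 _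
  have hμα : 0 < μ ^ α := Real.rpow_pos_of_pos hμ _
  have l0 := (h0.lim a0 ha0).comp (tendsto_mul_pos p0)
  have l1 := (h1.lim a1 ha1).comp (tendsto_mul_pos p1)
  have l2 := ((h2.lim _ ha2).comp (tendsto_mul_pos (mul_pos hμ p2))).const_mul (μ ^ α)
  have l3 := l0.max l1
  rw [mul_one] at l2
  rw [max_self] at l3
  refine le_of_tendsto_of_tendsto l2 l3 ?_
  filter_upwards [self_mem_nhdsWithin] with ε hε
  have hε0 : 0 < ε := hε
  show μ ^ α * RR α φ2 (a0 + a1) (ε * (μ * s2)) ≤ max (RR α φ0 a0 (ε * s0)) (RR α φ1 a1 (ε * s1))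
  have y0 : 0 < ε * s0 := mul_pos hε0 p0
  have y1 : 0 < ε * s1 := mul_pos hε0 p1
  have y2 : 0 < ε * (μ * s2) := by positivity
  have hy : ε * (μ * s2) = ε * s0 + ε * s1 := by rw [← heq]; ring
  have hpow : ∀ {t : ℝ}, 0 ≤ t → (t ^ α⁻¹) ^ α = t := fun ht => Real.rpow_inv_rpow ht hα.ne'
  have lead : ∀ {t s : ℝ}, 0 < s → s ^ α = t → t * (ε * s) ^ (-α) = ε ^ (-α) := by
    intro t s hs hst
    rw [Real.mul_rpow hε0.le hs.le, ← hst, Real.rpow_neg hs.le]
    have : s ^ α ≠ 0 := (Real.rpow_pos_of_pos hs _).ne'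
    field_simp
  have e0 := h0.expand hα y0 a0
  have e1 := h1.expand hα y1 a1
  have e2 := h2.expand hα y2 (a0 + a1)
  rw [lead p0 (hpow q0.le)] at e0
  rw [lead p1 (hpow q1.le)] at e1
  have lead2 : μ ^ α * φ2 (a0 + a1) * (ε * (μ * s2)) ^ (-α) = ε ^ (-α) := by
    apply lead (mul_pos hμ p2)
    rw [Real.mul_rpow hμ.le p2.le, hpow q2.le]
  set I0 := ∫ w, φ0 w * ker d α (ε * s0) (a0 - w) with hI0
  set I1 := ∫ w, φ1 w * ker d α (ε * s1) (a1 - w) with hI1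
  set I2 := ∫ w, φ2 w * ker d α (ε * (μ * s2)) (a0 + a1 - w) with hI2
  have n0 : ∀ w, 0 ≤ φ0 w * ker d α (ε * s0) (a0 - w) := fun w =>
    mul_nonneg (h0.nonneg w) (ker_pos y0 _).le
  have n1 : ∀ w, 0 ≤ φ1 w * ker d α (ε * s1) (a1 - w) := fun w =>
    mul_nonneg (h1.nonneg w) (ker_pos y1 _).le
  have n2 : ∀ w, 0 ≤ μ ^ α * (φ2 w * ker d α (ε * (μ * s2)) (a0 + a1 - w)) := fun w =>
    mul_nonneg hμα.le (mul_nonneg (h2.nonneg w) (ker_pos y2 _).le)
  have c0 : Continuous fun w => φ0 w * ker d α (ε * s0) (a0 - w) :=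
    h0.cont.mul ((ker_cont y0).comp (by fun_prop))
  have c1 : Continuous fun w => φ1 w * ker d α (ε * s1) (a1 - w) :=
    h1.cont.mul ((ker_cont y1).comp (by fun_prop))
  have c2 : Continuous fun w => μ ^ α * (φ2 w * ker d α (ε * (μ * s2)) (a0 + a1 - w)) :=
    continuous_const.mul (h2.cont.mul ((ker_cont y2).comp (by fun_prop)))
  have key := bbl_min d (fun w => ENNReal.ofReal (φ0 w * ker d α (ε * s0) (a0 - w)))
    (fun w => ENNReal.ofReal (φ1 w * ker d α (ε * s1) (a1 - w)))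
    (fun w => ENNReal.ofReal (μ ^ α * (φ2 w * ker d α (ε * (μ * s2)) (a0 + a1 - w))))
    c0.measurable.ennreal_ofReal c1.measurable.ennreal_ofReal c2.measurable.ennreal_ofReal
    (by
      intro w0 w1
      have r := rel_alg (d := d) hα (s0 := φ0 w0 ^ α⁻¹) (s1 := φ1 w1 ^ α⁻¹)
        (s := μ * φ2 (w0 + w1) ^ α⁻¹) (N0 := max ‖a0 - w0‖ (ε * s0))
        (N1 := max ‖a1 - w1‖ (ε * s1)) (N := max ‖a0 + a1 - (w0 + w1)‖ (ε * (μ * s2)))
        (Real.rpow_nonneg (h0.nonneg _) _) (Real.rpow_nonneg (h1.nonneg _) _)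
        (mul_nonneg hμ.le (Real.rpow_nonneg (h2.nonneg _) _))
        (lt_of_lt_of_le y0 (le_max_right _ _)) (lt_of_lt_of_le y1 (le_max_right _ _))
        (lt_of_lt_of_le y2 (le_max_right _ _)) (by
          intro b0 b1
          refine hle w0 (h0.mem ?_) w1 (h1.mem ?_)
          · rw [← hpow (h0.nonneg w0)]; exact Real.rpow_pos_of_pos b0 _
          · rw [← hpow (h1.nonneg w1)]; exact Real.rpow_pos_of_pos b1 _) (by
          apply max_le
          · have : a0 + a1 - (w0 + w1) = (a0 - w0) + (a1 - w1) := by abel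
            rw [this]
            exact (norm_add_le _ _).trans (add_le_add (le_max_left _ _) (le_max_left _ _))
          · rw [hy]
            exact add_le_add (le_max_right _ _) (le_max_right _ _))
      rw [hpow (h0.nonneg _), hpow (h1.nonneg _),
        Real.mul_rpow hμ.le (Real.rpow_nonneg (h2.nonneg _) _), hpow (h2.nonneg _), mul_assoc] at r
      exact r)
    (min I0 I1)
    (by
      rw [← ofReal_integral_eq_lintegral_ofReal (h0.int1 hα y0 a0) (Eventually.of_forall n0)]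
      exact ENNReal.ofReal_le_ofReal (min_le_left _ _))
    (by
      rw [← ofReal_integral_eq_lintegral_ofReal (h1.int1 hα y1 a1) (Eventually.of_forall n1)]
      exact ENNReal.ofReal_le_ofReal (min_le_right _ _))
  rw [← ofReal_integral_eq_lintegral_ofReal ((h2.int1 hα y2 (a0 + a1)).const_mul (μ ^ α))
    (Eventually.of_forall n2), ENNReal.ofReal_le_ofReal_iff (integral_nonneg n2),
    integral_const_mul, ← hI2, e2, mul_sub, ← mul_assoc, ← mul_assoc, lead2, e0, e1] at key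
  rcases le_total (RR α φ0 a0 (ε * s0)) (RR α φ1 a1 (ε * s1)) with hh | hh
  · rw [max_eq_right hh]
    rw [min_eq_right (by linarith)] at key
    linarith
  · rw [max_eq_left hh]
    rw [min_eq_left (by linarith)] at key
    linarith

/-- Brunn-Minkowski type inequality for fractional torsion functions -/
theorem bm_tors (hα : 0 < α) {D0 D1 D2 : Set (E d)} {φ0 φ1 φ2 : E d → ℝ} (h0 : Tors α D0 φ0)
    (h1 : Tors α D1 φ1) (h2 : Tors α D2 φ2)
    (hD : ∀ w0 ∈ closure D0, ∀ w1 ∈ closure D1, w0 + w1 ∈ D2)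
    {x0 x1 : E d} (hx0 : x0 ∈ closure D0) (hx1 : x1 ∈ closure D1) :
    φ0 x0 ^ α⁻¹ + φ1 x1 ^ α⁻¹ ≤ φ2 (x0 + x1) ^ α⁻¹ := by
  have hi : 0 < α⁻¹ := inv_pos.2 hα
  have cψ : ∀ {D : Set (E d)} {φ : E d → ℝ}, Tors α D φ → Continuous fun w => φ w ^ α⁻¹ :=
    fun h => h.cont.rpow_const fun _ => Or.inr hi.le
  have hK : IsCompact (closure D0 ×ˢ closure D1) :=
    h0.bdd.isCompact_closure.prod h1.bdd.isCompact_closure
  have den : ∀ p ∈ closure D0 ×ˢ closure D1, 0 < φ2 (p.1 + p.2) ^ α⁻¹ := fun p hp =>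
    Real.rpow_pos_of_pos (h2.pos (hD _ hp.1 _ hp.2)) _
  have hc : ContinuousOn (fun p : E d × E d =>
      (φ0 p.1 ^ α⁻¹ + φ1 p.2 ^ α⁻¹) / φ2 (p.1 + p.2) ^ α⁻¹) (closure D0 ×ˢ closure D1) := by
    refine ContinuousOn.div ?_ ?_ fun p hp => (den p hp).ne'
    · exact (((cψ h0).comp continuous_fst).add ((cψ h1).comp continuous_snd)).continuousOn
    · exact ((cψ h2).comp (continuous_fst.add continuous_snd)).continuousOn
  obtain ⟨⟨a0, a1⟩, ha, hmax⟩ := hK.exists_isMaxOn ⟨(x0, x1), hx0, hx1⟩ hc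
  set μ := (φ0 a0 ^ α⁻¹ + φ1 a1 ^ α⁻¹) / φ2 (a0 + a1) ^ α⁻¹ with hμ
  have hda : 0 < φ2 (a0 + a1) ^ α⁻¹ := den _ ha
  have hle : ∀ w0 ∈ closure D0, ∀ w1 ∈ closure D1,
      φ0 w0 ^ α⁻¹ + φ1 w1 ^ α⁻¹ ≤ μ * φ2 (w0 + w1) ^ α⁻¹ := by
    intro w0 hw0 w1 hw1
    have h3 : (φ0 w0 ^ α⁻¹ + φ1 w1 ^ α⁻¹) / φ2 (w0 + w1) ^ α⁻¹ ≤ μ :=
      hmax (show (w0, w1) ∈ closure D0 ×ˢ closure D1 from ⟨hw0, hw1⟩)
    rwa [div_le_iff₀ (den (w0, w1) ⟨hw0, hw1⟩)] at h3
  have heq : φ0 a0 ^ α⁻¹ + φ1 a1 ^ α⁻¹ = μ * φ2 (a0 + a1) ^ α⁻¹ := by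
    rw [hμ, div_mul_cancel₀ _ hda.ne']
  have hμ1 : μ ≤ 1 := by
    by_contra hn
    push Not at hn
    have hμ0 : 0 < μ := by linarith
    have big : 1 < μ ^ α := Real.one_lt_rpow hn hα
    have ha2 : a0 + a1 ∈ D2 := hD _ ha.1 _ ha.2
    have hpow : ∀ {t : ℝ}, 0 ≤ t → (t ^ α⁻¹) ^ α = t := fun ht => Real.rpow_inv_rpow ht hα.ne'
    have lift : ∀ {s t : ℝ}, 0 ≤ s → 0 ≤ t → s ^ α⁻¹ ≤ μ * t ^ α⁻¹ → s ≤ μ ^ α * t := by
      intro s t hs ht hst
      have := Real.rpow_le_rpow (Real.rpow_nonneg hs _) hst hα.le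
      rwa [hpow hs, Real.mul_rpow hμ0.le (Real.rpow_nonneg ht _), hpow ht] at this
    have lifte : ∀ {s t : ℝ}, 0 ≤ s → 0 ≤ t → s ^ α⁻¹ = μ * t ^ α⁻¹ → s = μ ^ α * t := by
      intro s t hs ht hst
      rw [← hpow hs, hst, Real.mul_rpow hμ0.le (Real.rpow_nonneg ht _), hpow ht]
    by_cases b0 : a0 ∈ D0
    · by_cases b1 : a1 ∈ D1
      · have := touch hα h0 h1 h2 b0 b1 ha2 hμ0
          (fun w0 hw0 w1 hw1 => hle w0 (subset_closure hw0) w1 (subset_closure hw1)) heq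
        linarith
      · have z1 : φ1 a1 ^ α⁻¹ = 0 := by rw [h1.zero _ b1, Real.zero_rpow hi.ne']
        have := cmp hα h0 h2 (p := a1) b0 ha2 (m := μ ^ α) (by
          intro w
          by_cases hw : w ∈ D0
          · apply lift (h0.nonneg _) (h2.nonneg _)
            have := hle w (subset_closure hw) a1 ha.2
            rwa [z1, add_zero] at this
          · rw [h0.zero _ hw]
            exact mul_nonneg (by linarith) (h2.nonneg _)) (by
          apply lifte (h0.nonneg _) (h2.nonneg _)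
          rwa [z1, add_zero] at heq)
        linarith
    · have z0 : φ0 a0 ^ α⁻¹ = 0 := by rw [h0.zero _ b0, Real.zero_rpow hi.ne']
      rw [z0, zero_add] at heq
      have b1 : a1 ∈ D1 := by
        apply h1.mem
        rw [← hpow (h1.nonneg a1), heq]
        exact Real.rpow_pos_of_pos (mul_pos hμ0 hda) _
      have := cmp hα h1 h2 (p := a0) b1 (by rwa [add_comm]) (m := μ ^ α) (by
        intro w
        by_cases hw : w ∈ D1
        · apply lift (h1.nonneg _) (h2.nonneg _)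
          have := hle a0 ha.1 w (subset_closure hw)
          rwa [z0, zero_add, add_comm] at this
        · rw [h1.zero _ hw]
          exact mul_nonneg (by linarith) (h2.nonneg _)) (by
        apply lifte (h1.nonneg _) (h2.nonneg _)
        rwa [add_comm a1 a0])
      linarith
  have := hle x0 hx0 x1 hx1
  have h4 : 0 < φ2 (x0 + x1) ^ α⁻¹ := den (x0, x1) ⟨hx0, hx1⟩
  nlinarith

/-- the torsion function of a convex open set is `1/α`-concave -/
theorem pow_concave (hα : 0 < α) {D : Set (E d)} {φ : E d → ℝ} (h : Tors α D φ) (hD : IsOpen D)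
    (hc : Convex ℝ D) : ConcaveOn ℝ D (fun x => φ x ^ α⁻¹) := by
  have hi : 0 < α⁻¹ := inv_pos.2 hα
  refine concaveOn_iff_forall_pos.2 ⟨hc, fun x0 hx0 x1 hx1 a b ha hb hab => ?_⟩
  have cψ : Continuous fun w => φ w ^ α⁻¹ := h.cont.rpow_const fun _ => Or.inr hi.le
  have sc : ∀ {c : ℝ}, 0 < c → ∀ z, (c ^ α * φ z) ^ α⁻¹ = c * φ z ^ α⁻¹ := by
    intro c hc0 z
    rw [Real.mul_rpow (Real.rpow_nonneg hc0.le _) (h.nonneg z), Real.rpow_rpow_inv hc0.le hα.ne']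
  have cl : ∀ {c : ℝ}, 0 < c → ∀ w ∈ closure {w : E d | c⁻¹ • w + 0 ∈ D}, c⁻¹ • w ∈ closure D := by
    intro c hc0 w hw
    have hcont : Continuous fun w : E d => c⁻¹ • w + 0 := by fun_prop
    have := hcont.closure_preimage_subset D hw
    simpa using this
  have main : ∀ c : ℝ, 1 < c → a * φ x0 ^ α⁻¹ + b * φ x1 ^ α⁻¹ ≤
      c * φ (c⁻¹ • (a • x0 + b • x1) + (1 - c⁻¹) • x0) ^ α⁻¹ := by
    intro c hc1
    have hc0 : 0 < c := by linarith
    have t0 := h.scale ha 0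
    have t1 := h.scale hb 0
    have t2 := h.scale hc0 ((1 - c⁻¹) • x0)
    have := bm_tors hα t0 t1 t2 (by
      intro w0 hw0 w1 hw1
      have m0 := cl ha w0 hw0
      have m1 := cl hb w1 hw1
      have m2 : w0 + w1 ∈ closure D := by
        have := hc.closure m0 m1 ha.le hb.le hab
        rwa [smul_smul, smul_smul, mul_inv_cancel₀ ha.ne', mul_inv_cancel₀ hb.ne', one_smul,
          one_smul] at this
      have hci : c⁻¹ < 1 := inv_lt_one_of_one_lt₀ hc1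
      have m3 := hc.combo_interior_closure_mem_interior (x := x0) (y := w0 + w1)
        (by rwa [hD.interior_eq]) m2 (a := 1 - c⁻¹) (b := c⁻¹) (by linarith)
        (inv_pos.2 hc0).le (by ring)
      rw [hD.interior_eq, add_comm] at m3
      exact m3) (x0 := a • x0) (x1 := b • x1)
      (subset_closure (by
        show a⁻¹ • a • x0 + 0 ∈ D
        rwa [add_zero, smul_smul, inv_mul_cancel₀ ha.ne', one_smul]))
      (subset_closure (by
        show b⁻¹ • b • x1 + 0 ∈ D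
        rwa [add_zero, smul_smul, inv_mul_cancel₀ hb.ne', one_smul]))
    rw [sc ha, sc hb, sc hc0, add_zero, add_zero, smul_smul, smul_smul, inv_mul_cancel₀ ha.ne',
      inv_mul_cancel₀ hb.ne', one_smul, one_smul] at this
    exact this
  have hlim : Tendsto (fun c : ℝ => c * φ (c⁻¹ • (a • x0 + b • x1) + (1 - c⁻¹) • x0) ^ α⁻¹)
      (𝓝[>] 1) (𝓝 (φ (a • x0 + b • x1) ^ α⁻¹)) := by
    have hca : ContinuousAt
        (fun c : ℝ => c * φ (c⁻¹ • (a • x0 + b • x1) + (1 - c⁻¹) • x0) ^ α⁻¹) 1 := by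
      refine continuousAt_id.mul (cψ.continuousAt.comp ?_)
      have : ContinuousAt (fun c : ℝ => c⁻¹) 1 := continuousAt_inv₀ one_ne_zero
      exact (this.smul continuousAt_const).add
        ((continuousAt_const.sub this).smul continuousAt_const)
    have := hca.tendsto
    simp only [inv_one, one_smul, sub_self, zero_smul, add_zero, one_mul] at this
    exact this.mono_left nhdsWithin_le_nhds
  simp only [smul_eq_mul]
  refine ge_of_tendsto hlim ?_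
  filter_upwards [self_mem_nhdsWithin] with c hc1
  exact main c hc1

theorem concave (hα : 0 < α) (hα1 : α ≤ 1) {D : Set (E d)} {φ : E d → ℝ} (h : Tors α D φ)
    (hD : IsOpen D) (hc : Convex ℝ D) : ConcaveOn ℝ D φ := by
  have hp := pow_concave hα h hD hc
  refine ⟨hc, fun x0 hx0 x1 hx1 a b ha hb hab => ?_⟩
  have h1 := hp.2 hx0 hx1 ha hb hab
  have hpow : ∀ {t : ℝ}, 0 ≤ t → (t ^ α⁻¹) ^ α = t := fun ht => Real.rpow_inv_rpow ht hα.ne'
  have n0 : 0 ≤ φ x0 ^ α⁻¹ := Real.rpow_nonneg (h.nonneg _) _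
  have n1 : 0 ≤ φ x1 ^ α⁻¹ := Real.rpow_nonneg (h.nonneg _) _
  have h2 := (Real.concaveOn_rpow hα.le hα1).2 (show φ x0 ^ α⁻¹ ∈ Ici (0 : ℝ) from n0)
    (show φ x1 ^ α⁻¹ ∈ Ici (0 : ℝ) from n1) ha hb hab
  simp only [smul_eq_mul] at h1 h2 ⊢
  rw [hpow (h.nonneg _), hpow (h.nonneg _)] at h2
  refine h2.trans ?_
  rw [← hpow (h.nonneg (a • x0 + b • x1))]
  exact Real.rpow_le_rpow (by positivity) h1 hα.le

end Pool.Agent.H27Z.FT
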