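import Mathlib
import Pool.Agent.H27Z.FT.Main

set_option autoImplicit false

namespace Pool.Agent.H27Z.FT

open MeasureTheory Set Filter Topology

variable {d : ℕ} {α : ℝ}

theorem lim_of_abs (hα : 0 < α) {φ : E d → ℝ} (hφ : Continuous φ) (x : E d)
    (hi : Integrable (fun y => (φ x - φ y) / ‖x - y‖ ^ ((d : ℝ) + α)))
    (h1 : ∫ y, (φ x - φ y) / ‖x - y‖ ^ ((d : ℝ) + α) = 1) :
    Tendsto (RR α φ x) (𝓝[>] 0) (𝓝 1) := by
  rw [← h1]
  have hd : (0 : ℝ) ≤ d := Nat.cast_nonneg d
  refine tendsto_integral_filter_of_dominated_convergence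
    (fun y => ‖(φ x - φ y) / ‖x - y‖ ^ ((d : ℝ) + α)‖) ?_ ?_ hi.norm ?_
  · filter_upwards [self_mem_nhdsWithin] with y hy
    exact ((continuous_const.sub hφ).mul
      ((ker_cont hy).comp (continuous_const.sub continuous_id))).aestronglyMeasurable
  · filter_upwards [self_mem_nhdsWithin] with y hy
    refine Eventually.of_forall fun w => ?_
    by_cases hw : w = x
    · simp [hw]
    · have hρ : 0 < ‖x - w‖ := norm_pos_iff.2 (sub_ne_zero.2 (Ne.symm hw))
      rw [div_eq_mul_inv, ← Real.rpow_neg hρ.le, norm_mul, norm_mul]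
      apply mul_le_mul_of_nonneg_left _ (norm_nonneg _)
      rw [Real.norm_eq_abs, Real.norm_eq_abs, abs_of_pos (ker_pos hy _),
        abs_of_pos (Real.rpow_pos_of_pos hρ _)]
      exact Real.rpow_le_rpow_of_nonpos hρ (le_max_left _ _) (by linarith)
  · refine Eventually.of_forall fun w => ?_
    by_cases hw : w = x
    · simp [hw]
    · have hρ : 0 < ‖x - w‖ := norm_pos_iff.2 (sub_ne_zero.2 (Ne.symm hw))
      refine tendsto_const_nhds.congr' ?_
      filter_upwards [Ioo_mem_nhdsGT hρ] with y hy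
      unfold ker
      rw [max_eq_left hy.2.le, div_eq_mul_inv, ← Real.rpow_neg hρ.le]

end Pool.Agent.H27Z.FT
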