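import Mathlib
import Pool.Agent.H27Z.FT.Main

set_option autoImplicit false

namespace Pool.Agent.H27Z.FT

open MeasureTheory Set Filter Topology

variable {d : ℕ} {α : ℝ}

theorem inner_int {e y ρ : ℝ} (he : 0 < e) (hy : 0 < y) (hρ : 0 < ρ) :
    (∫ t in Ioo (0 : ℝ) 1, indicator {t : ℝ | t * y < ρ} (fun t => e * t ^ (e - 1)) t) * ρ ^ (-e)
      = (max ρ y) ^ (-e) := by
  have hm : MeasurableSet {t : ℝ | t * y < ρ} :=
    measurableSet_lt (measurable_id.mul measurable_const) measurable_const
  rw [setIntegral_indicator hm]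
  set m := min 1 (ρ / y) with hmdef
  have hm0 : 0 < m := lt_min one_pos (div_pos hρ hy)
  have hset : Ioo (0 : ℝ) 1 ∩ {t : ℝ | t * y < ρ} = Ioo 0 m := by
    ext t
    simp only [mem_inter_iff, mem_Ioo, mem_ofPred_eq, hmdef, lt_min_iff, lt_div_iff₀ hy]
    tauto
  rw [hset, ← integral_Ioc_eq_integral_Ioo, ← intervalIntegral.integral_of_le hm0.le,
    intervalIntegral.integral_const_mul, integral_rpow (Or.inl (by linarith))]
  have e1 : e - 1 + 1 = e := by ring
  rw [e1, Real.zero_rpow he.ne', sub_zero, mul_div_cancel₀ _ he.ne']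
  rcases le_total ρ y with h | h
  · have : m = ρ / y := min_eq_right ((div_le_one hy).2 h)
    rw [this, max_eq_right h, Real.div_rpow hρ.le hy.le, Real.rpow_neg hρ.le, Real.rpow_neg hy.le]
    have : ρ ^ e ≠ 0 := (Real.rpow_pos_of_pos hρ _).ne'
    field_simp
  · have : m = 1 := min_eq_left ((one_le_div hy).2 h)
    rw [this, max_eq_left h, Real.one_rpow, one_mul]

theorem weight_int {e : ℝ} (he : 0 < e) :
    IntegrableOn (fun t : ℝ => e * t ^ (e - 1)) (Ioo 0 1) := by
  have := (intervalIntegral.intervalIntegrable_rpow' (r := e - 1) (by linarith)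
    (a := 0) (b := 1)).const_mul e
  exact (intervalIntegrable_iff_integrableOn_Ioo_of_le zero_le_one).1 this

theorem weight_one {e : ℝ} (he : 0 < e) : ∫ t in Ioo (0 : ℝ) 1, e * t ^ (e - 1) = 1 := by
  rw [← integral_Ioc_eq_integral_Ioo, ← intervalIntegral.integral_of_le zero_le_one,
    intervalIntegral.integral_const_mul, integral_rpow (Or.inl (by linarith))]
  have e1 : e - 1 + 1 = e := by ring
  rw [e1, Real.zero_rpow he.ne', sub_zero, Real.one_rpow, mul_div_cancel₀ _ he.ne']

/-- truncated singular integral -/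
noncomputable def II (α : ℝ) (φ : E d → ℝ) (x : E d) (r : ℝ) : ℝ :=
  ∫ w in {w : E d | r < ‖x - w‖}, (φ x - φ w) * ‖x - w‖ ^ (-((d : ℝ) + α))

theorem abel (hα : 0 < α) {φ : E d → ℝ} (hφ : Continuous φ) {M : ℝ} (hM : ∀ w, ‖φ w‖ ≤ M)
    (x : E d) {y : ℝ} (hy : 0 < y) :
    IntegrableOn (fun t : ℝ => ((d : ℝ) + α) * t ^ ((d : ℝ) + α - 1) * II α φ x (t * y)) (Ioo 0 1) ∧
    RR α φ x y = ∫ t in Ioo (0 : ℝ) 1, ((d : ℝ) + α) * t ^ ((d : ℝ) + α - 1) * II α φ x (t * y) := by
  have hd : (0 : ℝ) ≤ d := Nat.cast_nonneg d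
  set e : ℝ := (d : ℝ) + α with hedef
  have he : 0 < e := by rw [hedef]; linarith
  set c : E d → ℝ := fun w => (φ x - φ w) * ‖x - w‖ ^ (-e) with hc
  set G : E d → ℝ → ℝ := fun w t =>
    c w * indicator {t : ℝ | t * y < ‖x - w‖} (fun t => e * t ^ (e - 1)) t with hG
  have cm : Measurable c :=
    (measurable_const.sub hφ.measurable).mul
      ((continuous_const.sub continuous_id).norm.measurable.pow_const _)
  have Gm : Measurable (Function.uncurry G) := by
    have h1 : Function.uncurry G = fun p : E d × ℝ => c p.1 *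
        indicator {p : E d × ℝ | p.2 * y < ‖x - p.1‖} (fun p => e * p.2 ^ (e - 1)) p := by
      funext p
      simp only [Function.uncurry, hG, indicator, mem_ofPred_eq]
    rw [h1]
    refine (cm.comp measurable_fst).mul (Measurable.indicator ?_ ?_)
    · exact measurable_const.mul (measurable_snd.pow_const _)
    · exact measurableSet_lt (measurable_snd.mul measurable_const)
        ((continuous_const.sub continuous_fst).norm.measurable)
  have hmS : ∀ w : E d, MeasurableSet {t : ℝ | t * y < ‖x - w‖} := fun w =>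
    measurableSet_lt (measurable_id.mul measurable_const) measurable_const
  have inner : ∀ w, ∫ t in Ioo (0 : ℝ) 1, G w t = (φ x - φ w) * ker d α y (x - w) := by
    intro w
    simp only [hG]
    rw [integral_const_mul]
    by_cases hw : w = x
    · simp [hc, hw]
    · have hρ : 0 < ‖x - w‖ := norm_pos_iff.2 (sub_ne_zero.2 (Ne.symm hw))
      have := inner_int he hy hρ
      simp only [hc]
      unfold ker
      rw [← hedef, ← this]; ring
  have innern : ∀ w, ∫ t in Ioo (0 : ℝ) 1, ‖G w t‖ = ‖(φ x - φ w) * ker d α y (x - w)‖ := by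
    intro w
    have h1 : ∫ t in Ioo (0 : ℝ) 1, ‖G w t‖ = ∫ t in Ioo (0 : ℝ) 1,
        ‖c w‖ * indicator {t : ℝ | t * y < ‖x - w‖} (fun t => e * t ^ (e - 1)) t := by
      refine setIntegral_congr_fun measurableSet_Ioo fun t ht => ?_
      simp only [hG, norm_mul]
      congr 1
      rw [Real.norm_eq_abs, abs_of_nonneg]
      simp only [indicator]
      split_ifs
      · exact mul_nonneg he.le (Real.rpow_nonneg ht.1.le _)
      · exact le_rfl
    rw [h1, integral_const_mul]
    by_cases hw : w = x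
    · simp [hc, hw]
    · have hρ : 0 < ‖x - w‖ := norm_pos_iff.2 (sub_ne_zero.2 (Ne.symm hw))
      have := inner_int he hy hρ
      simp only [hc, norm_mul]
      rw [Real.norm_eq_abs (ker d α y (x - w)), abs_of_pos (ker_pos hy _),
        Real.norm_eq_abs (‖x - w‖ ^ (-e)), abs_of_pos (Real.rpow_pos_of_pos hρ _)]
      unfold ker
      rw [← hedef, ← this]; ring
  have hint2 : Integrable (fun w => (φ x - φ w) * ker d α y (x - w)) := by
    refine (ker_sub_int hα hy x).bdd_mul (c := ‖φ x‖ + M)
      (continuous_const.sub hφ).aestronglyMeasurable (Eventually.of_forall fun w => ?_)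
    exact (norm_sub_le _ _).trans (by linarith [hM w])
  have Gi : Integrable (Function.uncurry G) (volume.prod (volume.restrict (Ioo (0 : ℝ) 1))) := by
    rw [integrable_prod_iff Gm.aestronglyMeasurable]
    refine ⟨Eventually.of_forall fun w => ?_, ?_⟩
    · exact ((weight_int he).indicator (hmS w)).const_mul (c w)
    · simp only [Function.uncurry]
      simp_rw [innern]
      exact hint2.norm
  have outer : ∀ t, ∫ w, G w t = e * t ^ (e - 1) * II α φ x (t * y) := by
    intro t
    unfold II
    have hS : MeasurableSet {w : E d | t * y < ‖x - w‖} :=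
      measurableSet_lt measurable_const (continuous_const.sub continuous_id).norm.measurable
    rw [← integral_indicator hS, ← integral_const_mul]
    refine integral_congr_ae (Eventually.of_forall fun w => ?_)
    simp only [hG, hc, indicator, mem_ofPred_eq]
    split_ifs
    · rw [← hedef]; ring
    · simp
  refine ⟨?_, ?_⟩
  · have := Gi.integral_prod_right
    simp only [Function.uncurry] at this
    simp_rw [outer] at this
    exact this
  · unfold RR
    simp_rw [← inner, ← outer]
    exact integral_integral_swap Gi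

theorem lim_of_pv (hα : 0 < α) {φ : E d → ℝ} (hφ : Continuous φ) {M : ℝ} (hM : ∀ w, ‖φ w‖ ≤ M)
    (x : E d) (h : Tendsto (II α φ x) (𝓝[>] 0) (𝓝 1)) : Tendsto (RR α φ x) (𝓝[>] 0) (𝓝 1) := by
  have hd : (0 : ℝ) ≤ d := Nat.cast_nonneg d
  have he : 0 < (d : ℝ) + α := by linarith
  rw [Metric.tendsto_nhdsWithin_nhds] at h ⊢
  intro η hη
  obtain ⟨δ, hδ, hI⟩ := h (η / 2) (by linarith)
  refine ⟨δ, hδ, fun y hy hyδ => ?_⟩
  have hy0 : 0 < y := hy
  rw [Real.dist_eq, sub_zero, abs_of_pos hy0] at hyδ
  obtain ⟨i1, i2⟩ := abel hα hφ hM x hy0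
  have e1 : RR α φ x y - 1 = ∫ t in Ioo (0 : ℝ) 1,
      (((d : ℝ) + α) * t ^ ((d : ℝ) + α - 1) * II α φ x (t * y) -
        ((d : ℝ) + α) * t ^ ((d : ℝ) + α - 1)) := by
    rw [integral_sub i1 (weight_int he), weight_one he, i2]
  rw [dist_eq_norm, e1]
  have b := norm_integral_le_of_norm_le (μ := volume.restrict (Ioo (0 : ℝ) 1))
    (f := fun t : ℝ => ((d : ℝ) + α) * t ^ ((d : ℝ) + α - 1) * II α φ x (t * y) -
        ((d : ℝ) + α) * t ^ ((d : ℝ) + α - 1))
    ((weight_int he).const_mul (η / 2)) (by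
      refine (ae_restrict_iff' measurableSet_Ioo).2 (Eventually.of_forall fun t ht => ?_)
      have hty : 0 < t * y := mul_pos ht.1 hy0
      have h1 := hI (x := t * y) hty (by
        rw [Real.dist_eq, sub_zero, abs_of_pos hty]
        nlinarith [ht.2])
      have hw : 0 ≤ ((d : ℝ) + α) * t ^ ((d : ℝ) + α - 1) :=
        mul_nonneg he.le (Real.rpow_nonneg ht.1.le _)
      rw [dist_eq_norm] at h1
      rw [← mul_sub_one, norm_mul, Real.norm_eq_abs, abs_of_nonneg hw, mul_comm]
      exact mul_le_mul_of_nonneg_right h1.le hw)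
  rw [integral_const_mul, weight_one he] at b
  linarith

end Pool.Agent.H27Z.FT
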